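import Pool.Agent.Lib.MP_4f9744_nt.Final

/-!
# MP_4f9744_nt, Q2 : the digit relation in the bases 4, 5 and 9.

For `b = 4, 5, 9` and for every `k` the least `b`-elated numbers of height `k` and `k + 1` exist,
and the base-`b` digits of the first are a permutation of the digits of the image of the second
exactly when `k` is outside the finite set `exc b`.
-/

namespace Pool.Agent.Results.MP_4f9744_nt.BasesFourFiveNine

open Pool.Agent.Lib.MP_4f9744_nt

theorem result {b : ℕ} (hb : b = 4 ∨ b = 5 ∨ b = 9) (k : ℕ) :
    ∃ x y : ℕ, IsEps b k x ∧ IsEps b (k + 1) y ∧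
      ((Nat.digits b x).Perm (Nat.digits b (elat b y)) ↔ k ∉ exc b) :=
  main hb k

end Pool.Agent.Results.MP_4f9744_nt.BasesFourFiveNine
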